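import Mathlib
import Pool.Agent.H645R2.R.All

/-!
Colourings with `k` colours over models of `RCA₀`, and the function `⌊n / k⌋`.
-/

namespace Pool.Agent.T2h50.BT

open Pool.Agent.Helper617.RM Pool.Agent.H645R2.R

universe u

set_option linter.unusedSectionVars false
set_option linter.unusedVariables false

variable {N : L2Structure.{u}} [IsModelRCA0 N]

theorem lt_natCast {k : ℕ} {d : N.M} (h : d < (k : N.M)) : ∃ j : ℕ, j < k ∧ d = (j : N.M) := by
  induction k with
  | zero => exact absurd h (by simpa using zero_le' d)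
  | succ k ih =>
    rw [Nat.cast_succ] at h
    rcases (le_of_lt1 h).lt_or_eq with h1 | h1
    · obtain ⟨j, hj, hd⟩ := ih h1
      exact ⟨j, hj.trans (Nat.lt_succ_self k), hd⟩
    · exact ⟨k, Nat.lt_succ_self k, h1⟩

/-- `th n = ⌊n / k⌋` -/
structure Th (k : ℕ) (th : N.M → N.M) : Prop where
  hth : GF th
  le : ∀ n, (k : N.M) * th n ≤ n
  lt : ∀ n, n < (k : N.M) * th n + (k : N.M)

theorem div_unique {k : ℕ} {n q q' : N.M} (h1 : (k : N.M) * q ≤ n)
    (h2 : n < (k : N.M) * q + (k : N.M)) (h3 : (k : N.M) * q' ≤ n)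
    (h4 : n < (k : N.M) * q' + (k : N.M)) : q = q' := by
  have key : ∀ {q q' : N.M}, (k : N.M) * q ≤ n → n < (k : N.M) * q' + (k : N.M) → q ≤ q' := by
    intro q q' h1 h4
    by_contra hlt
    rw [not_le] at hlt
    have h5 : q' + 1 ≤ q := succ_le' hlt
    have h6 : (k : N.M) * (q' + 1) ≤ (k : N.M) * q := mul_le_mul_of_nonneg_left h5 (zero_le' _)
    rw [mul_add, mul_one] at h6
    exact absurd (h6.trans h1) (not_le.2 h4)
  exact le_antisymm (key h1 h4) (key h3 h2)

theorem exists_div {k : ℕ} (hk : 0 < k) (n : N.M) :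
    ∃ q, (k : N.M) * q ≤ n ∧ n < (k : N.M) * q + (k : N.M) := by
  have hk' : (0 : N.M) < (k : N.M) := by exact_mod_cast hk
  have key : ∃ q, q < n + 1 ∧ ((k : N.M) * q < n + 1 ∧ n < (k : N.M) * q + (k : N.M)) := by
    refine ind_S1 (P := fun n => ∃ q, q < n + 1 ∧ ((k : N.M) * q < n + 1 ∧
      n < (k : N.M) * q + (k : N.M))) ?_ ?_ ?_ n
    · have : D1 (fun v : Ctx N => ∃ q, q < v 0 + 1 ∧ ((k : N.M) * q < v 0 + 1 ∧
          v 0 < (k : N.M) * q + (k : N.M))) := by
        refine D1.bex (DG.add (DG.var 0) (DG.const 1)) (D1.and ?_ ?_)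
        · exact D1.lt (DG.mul (DG.const _) (DG.var 0)) (DG.add (DG.var 1) (DG.const 1))
        · exact D1.lt (DG.var 1) (DG.add (DG.mul (DG.const _) (DG.var 0)) (DG.const _))
      exact this.1
    · refine ⟨0, by simpa using zero_lt_one, ?_, ?_⟩
      · simpa using zero_lt_one
      · simpa using hk'
    · rintro n ⟨q, h1, h2, h3⟩
      rcases (succ_le' h3).lt_or_eq with h4 | h4
      · exact ⟨q, h1.trans (lt1 _), h2.trans (lt1 _), h4⟩
      · refine ⟨q + 1, by simpa using h1, ?_, ?_⟩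
        · rw [mul_add, mul_one, ← h4]
          exact lt1 _
        · rw [mul_add, mul_one, ← h4]
          exact lt_add_of_pos_right _ hk'
  obtain ⟨q, _, h2, h3⟩ := key
  exact ⟨q, le_of_lt1 h2, h3⟩

theorem exists_th {k : ℕ} (hk : 0 < k) : ∃ th : N.M → N.M, Th k th := by
  choose th h1 h2 using exists_div (N := N) hk
  refine ⟨th, ?_, h1, h2⟩
  refine GF.graph (D1.congr (R := fun v : Ctx N => (k : N.M) * v 1 ≤ v 0 ∧
    v 0 < (k : N.M) * v 1 + (k : N.M)) ?_ ?_)
  · refine D1.and ?_ ?_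
    · exact D1.le (DG.mul (DG.const _) (DG.var 1)) (DG.var 0)
    · exact D1.lt (DG.var 0) (DG.add (DG.mul (DG.const _) (DG.var 1)) (DG.const _))
  · intro v
    constructor
    · rintro ⟨h3, h4⟩
      exact div_unique h3 h4 (h1 _) (h2 _)
    · intro h
      rw [h]
      exact ⟨h1 _, h2 _⟩

theorem Th.mul_add_nat {k : ℕ} {th : N.M → N.M} (h : Th k th) (c : N.M) {j : ℕ} (hj : j < k) :
    th ((k : N.M) * c + (j : N.M)) = c := by
  refine (div_unique (n := (k : N.M) * c + (j : N.M)) ?_ ?_ (h.le _) (h.lt _)).symm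
  · exact le_self_add
  · have : (j : N.M) < (k : N.M) := by exact_mod_cast hj
    exact add_lt_add_right this _

theorem Th.le_self {k : ℕ} {th : N.M → N.M} (hk : 0 < k) (h : Th k th) (n : N.M) : th n ≤ n := by
  have hk' : (1 : N.M) ≤ (k : N.M) := by exact_mod_cast hk
  calc th n = 1 * th n := (one_mul _).symm
    _ ≤ (k : N.M) * th n := mul_le_mul_of_nonneg_right hk' (zero_le' _)
    _ ≤ n := h.le n

/-! ### residues -/

theorem exists_res {k : ℕ} (hk : 0 < k) (x : N.M) :
    ∃ j : ℕ, j < k ∧ ∃ q, x = (k : N.M) * q + (j : N.M) := by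
  obtain ⟨q, h1, h2⟩ := exists_div hk x
  obtain ⟨d, hd⟩ := exists_sub h1
  rw [hd] at h2
  obtain ⟨j, hj, hdj⟩ := lt_natCast (lt_of_add_lt_add_left h2)
  exact ⟨j, hj, q, by rw [hd, hdj]⟩

theorem res_unique {k : ℕ} {x q q' : N.M} {j j' : ℕ} (hj : j < k) (hj' : j' < k)
    (h : x = (k : N.M) * q + (j : N.M)) (h' : x = (k : N.M) * q' + (j' : N.M)) : j = j' := by
  have e1 : (j : N.M) < (k : N.M) := by exact_mod_cast hj
  have e2 : (j' : N.M) < (k : N.M) := by exact_mod_cast hj'
  have hq : q = q' := by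
    refine div_unique (k := k) (n := x) ?_ ?_ ?_ ?_
    · rw [h]; exact le_self_add
    · rw [h]; exact add_lt_add_right e1 _
    · rw [h']; exact le_self_add
    · rw [h']; exact add_lt_add_right e2 _
  rw [h, hq] at h'
  have := add_left_cancel h'
  exact_mod_cast this

/-- the residue modulo `k` -/
noncomputable def rs {k : ℕ} (hk : 0 < k) (x : N.M) : ZMod k :=
  ((Classical.choose (exists_res hk x) : ℕ) : ZMod k)

theorem rs_eq {k : ℕ} (hk : 0 < k) {x q : N.M} {j : ℕ} (hj : j < k)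
    (h : x = (k : N.M) * q + (j : N.M)) : rs hk x = (j : ZMod k) := by
  obtain ⟨h1, q', h2⟩ := Classical.choose_spec (exists_res hk x)
  unfold rs
  rw [res_unique h1 hj h2 h]

theorem rs_succ {k : ℕ} (hk : 0 < k) (x : N.M) : rs hk (x + 1) = rs hk x + 1 := by
  obtain ⟨j, hj, q, hq⟩ := exists_res hk x
  rw [rs_eq hk hj hq]
  rcases Nat.lt_or_ge (j + 1) k with h | h
  · rw [rs_eq hk (j := j + 1) (q := q) h (by rw [hq]; push_cast; ring)]
    push_cast; ring
  · have hjk : j + 1 = k := by omega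
    rw [rs_eq hk (j := 0) (q := q + 1) hk (by
      rw [hq, mul_add, mul_one, Nat.cast_zero, add_zero, ← hjk]; push_cast; ring)]
    have : ((j + 1 : ℕ) : ZMod k) = 0 := by rw [hjk]; simp
    push_cast at this
    rw [this]; simp

theorem rs_iff {k : ℕ} (hk : 0 < k) (x : N.M) (c : ZMod k) :
    rs hk x = c ↔ ∃ q, q < x + 1 ∧ x = (k : N.M) * q + ((ZMod.val c : ℕ) : N.M) := by
  have : NeZero k := ⟨hk.ne'⟩
  constructor
  · rintro rfl
    obtain ⟨j, hj, q, hq⟩ := exists_res hk x
    rw [rs_eq hk hj hq, ZMod.val_natCast, Nat.mod_eq_of_lt hj]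
    refine ⟨q, lt1_of_le ?_, hq⟩
    have hk' : (1 : N.M) ≤ (k : N.M) := by exact_mod_cast hk
    calc q = 1 * q := (one_mul _).symm
      _ ≤ (k : N.M) * q := mul_le_mul_of_nonneg_right hk' (zero_le' _)
      _ ≤ (k : N.M) * q + (j : N.M) := le_self_add
      _ = x := hq.symm
  · rintro ⟨q, -, hq⟩
    rw [rs_eq hk (ZMod.val_lt c) hq, ZMod.natCast_zmod_val]

theorem rs_D1 {k : ℕ} (hk : 0 < k) (c : ZMod k) {g : Ctx N → N.M} (hg : DG g) :
    D1 (fun v : Ctx N => rs hk (g v) = c) := by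
  refine D1.congr (R := fun v : Ctx N => ∃ q, q < g v + 1 ∧
    g v = (k : N.M) * q + ((ZMod.val c : ℕ) : N.M)) ?_ (fun v => (rs_iff hk _ _).symm)
  refine D1.bex (P := fun v q => g v = (k : N.M) * q + ((ZMod.val c : ℕ) : N.M))
    (DG.add hg (DG.const 1)) ?_
  exact D1.eq hg.tail (DG.add (DG.mul (DG.const _) (DG.var 0)) (DG.const _))

/-! ### the colouring -/

/-- the colouring -/
structure Sys (k : ℕ) (p2 top la th : N.M → N.M) (W : N.M → N.M → Prop) (C : N.M → ZMod k) :
    Prop where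
  hC : ∀ j, D0 (fun v : Ctx N => C (v 0) = j)
  pow : ∀ i, C (p2 (i + 1)) = C (p2 i) + 1
  add1 : ∀ m i a b, 0 < m → m < p2 i → top m = la m + a → i = la m + b →
    Ev W (th (la m)) a b → C (m + p2 i) = C m + 1
  add0 : ∀ m i a b, 0 < m → m < p2 i → top m = la m + a → i = la m + b →
    ¬ Ev W (th (la m)) a b → C (m + p2 i) = C m

theorem Sys.app {k : ℕ} {p2 top la th : N.M → N.M} {W : N.M → N.M → Prop} {C : N.M → ZMod k}
    (h : Sys k p2 top la th W C) {g : Ctx N → N.M} (hg : DG g) (c : ZMod k) :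
    D1 (fun v => C (g v) = c) := D1.app1 (R := fun a => C a = c) (D1.of (h.hC c)) hg

/-- existence of the colouring -/
theorem exists_sys {k : ℕ} (hk : 0 < k) {p2 top la th : N.M → N.M} {W : N.M → N.M → Prop}
    (hB : BinF p2 top la) (hth : Th k th) (hW : Enum W) :
    ∃ C : N.M → ZMod k, Sys k p2 top la th W C := by
  classical
  have hp2 := hB.hp2
  have htop := hB.htop
  have hla := hB.hla
  have hthG := hth.hth
  have hpdex : ∀ n : N.M, ∃ m, (n = m + p2 (top n)) ∨ (n = 0 ∧ m = 0) := by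
    intro n
    by_cases hn : n = 0
    · exact ⟨0, Or.inr ⟨hn, rfl⟩⟩
    · rcases hB.dec n (Helper617.RM.pos_of_ne_zero hn) with h1 | ⟨m, _, _, hm⟩
      · exact ⟨0, Or.inl (by rw [zero_add]; exact h1)⟩
      · exact ⟨m, Or.inl hm⟩
  choose pd hpd using hpdex
  have hnz : ∀ n m : N.M, n = m + p2 (top n) → n ≠ 0 := by
    intro n m hm h0
    have h1 := hB.p2_pos (top n)
    have h2 : 0 < m + p2 (top n) := add_pos_of_nonneg_of_pos (zero_le' m) h1
    rw [← hm, h0] at h2
    exact lt_irrefl _ h2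
  have huniq : ∀ n m, ((n = m + p2 (top n)) ∨ (n = 0 ∧ m = 0)) → m = pd n := by
    intro n m hm
    rcases hm with hm | ⟨hn, hm⟩
    · rcases hpd n with h2 | ⟨h2, h3⟩
      · exact add_cancel' (hm.symm.trans h2)
      · exact absurd h2 (hnz n m hm)
    · rcases hpd n with h2 | ⟨h2, h3⟩
      · exact absurd hn (hnz n (pd n) h2)
      · rw [hm, h3]
  have hpdpos : ∀ n, 0 < n → n = pd n + p2 (top n) := by
    intro n hn
    rcases hpd n with h2 | ⟨h2, h3⟩
    · exact h2
    · exact absurd h2 hn.ne'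
  have hpdGF : GF pd := by
    refine GF.graph (D1.congr (R := fun v => (v 0 = v 1 + p2 (top (v 0))) ∨
      (v 0 = 0 ∧ v 1 = 0)) ?_ ?_)
    · (repeat' (first | assumption | exact DG.var _ | refine DG.add ?_ ?_ |
        refine DG.app (by assumption) ?_ | exact DG.const _ |
        refine D1.and ?_ ?_ | refine D1.or ?_ ?_ | refine D1.not ?_ | refine D1.eq ?_ ?_))
    · intro v
      exact ⟨fun h' => huniq _ _ h', fun h' => by rw [h']; exact hpd _⟩
  have hpdlt : ∀ n, 0 < n → pd n < n := by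
    intro n hn
    have h1 := hpdpos n hn
    calc pd n < pd n + p2 (top n) := lt_add_of_pos_right _ (hB.p2_pos _)
      _ = n := h1.symm
  obtain ⟨Act, hAct⟩ : ∃ Act : N.M → Prop, ∀ n, Act n ↔ ∃ a, a < n + 1 ∧ ∃ b, b < n + 1 ∧
      (top (pd n) = la (pd n) + a ∧ (top n = la (pd n) + b ∧
        ∃ z, z < th (la (pd n)) ∧ (W b z ∧ ¬ W a z))) := ⟨_, fun n => Iff.rfl⟩
  have hActD : D1 (fun v : Ctx N => Act (v 0)) := by
    refine D1.congr (R := fun v => ∃ a, a < v 0 + 1 ∧ ∃ b, b < v 0 + 1 ∧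
      (top (pd (v 0)) = la (pd (v 0)) + a ∧ (top (v 0) = la (pd (v 0)) + b ∧
        ∃ z, z < th (la (pd (v 0))) ∧ (W b z ∧ ¬ W a z)))) ?_ (fun v => (hAct _).symm)
    (repeat' (first | assumption | exact DG.var _ | refine DG.add ?_ ?_ |
        refine DG.app (by assumption) ?_ | exact DG.const _ |
        refine D1.app2 (R := W) (D1.of hW.hW) ?_ ?_ |
        refine D1.and ?_ ?_ | refine D1.or ?_ ?_ | refine D1.bex ?_ ?_ |
        refine D1.not ?_ | refine D1.eq ?_ ?_))
  obtain ⟨st, hst⟩ : ∃ st : N.M → N.M → N.M, ∀ n s, st n s =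
      if pd n = 0 then top n else if Act n then s + 1 else s := ⟨_, fun _ _ => rfl⟩
  have hstD : D1 (fun v : Ctx N => v 2 = st (v 0) (v 1)) := by
    refine D1.congr (R := fun v => (pd (v 0) = 0 ∧ v 2 = top (v 0)) ∨
      (¬ pd (v 0) = 0 ∧ ((Act (v 0) ∧ v 2 = v 1 + 1) ∨ (¬ Act (v 0) ∧ v 2 = v 1)))) ?_ ?_
    · (repeat' (first | assumption | exact DG.var _ | refine DG.add ?_ ?_ |
        refine DG.app (by assumption) ?_ | exact DG.const _ |
        refine D1.and ?_ ?_ | refine D1.or ?_ ?_ |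
        refine D1.not ?_ | refine D1.eq ?_ ?_))
    · intro v
      rw [hst]
      by_cases h0 : pd (v 0) = 0
      · simp [h0]
      · by_cases h1 : Act (v 0)
        · simp [h0, h1]
        · simp [h0, h1]
  obtain ⟨Φ, hΦ, hΦ0, hΦs⟩ := recur N pd st 0 hpdGF hstD hpdlt
  have hle : ∀ m : N.M, 0 < m → top m < m + 1 := by
    intro m hm
    exact lt1_of_le ((hB.lt_p2 (top m)).le.trans (hB.top_le m hm))
  refine ⟨fun n => rs hk (Φ n), ?_, ?_, ?_, ?_⟩
  · intro j
    have hj : D1 (fun v : Ctx N => rs hk (Φ (v 0)) = j) := rs_D1 hk j (DG.app hΦ (DG.var 0))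
    exact d0_of_D1_pred (P := fun x => rs hk (Φ x) = j) hj.1 hj.2
  · have hpow : ∀ i, Φ (p2 i) = i := by
      intro i
      have hpos := hB.p2_pos i
      have h0 : pd (p2 i) = 0 := by
        refine (huniq (p2 i) 0 (Or.inl ?_)).symm
        rw [hB.top_p2, zero_add]
      rw [hΦs _ hpos, hst, if_pos h0, hB.top_p2]
    intro i
    change rs hk (Φ (p2 (i + 1))) = rs hk (Φ (p2 i)) + 1
    rw [hpow, hpow, rs_succ]
  · intro m i a b hm hmi ha hb hev
    have htopn : top (m + p2 i) = i := hB.top_add m i hmi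
    have hpdn : pd (m + p2 i) = m := by
      refine (huniq (m + p2 i) m (Or.inl ?_)).symm
      rw [htopn]
    have hpos : 0 < m + p2 i := add_pos_of_pos_of_nonneg hm (zero_le' _)
    have hact : Act (m + p2 i) := by
      rw [hAct, hpdn, htopn]
      refine ⟨a, ?_, b, ?_, ha, hb, hev⟩
      · have h1 : a ≤ top m := by rw [ha]; exact le_add_of_nonneg_left (zero_le' _)
        have h2 : top m < m + 1 := hle m hm
        have h3 : m + 1 ≤ m + p2 i + 1 := by
          have := hB.p2_pos i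
          exact add_le_add (le_add_of_nonneg_right this.le) le_rfl
        exact (h1.trans_lt h2).trans_le h3
      · have h1 : b ≤ i := by rw [hb]; exact le_add_of_nonneg_left (zero_le' _)
        have h2 : i < p2 i := hB.lt_p2 i
        have h3 : p2 i ≤ m + p2 i := le_add_of_nonneg_left (zero_le' _)
        exact (h1.trans_lt (h2.trans_le h3)).trans (lt1 _)
    change rs hk (Φ (m + p2 i)) = rs hk (Φ m) + 1
    rw [hΦs _ hpos, hst, hpdn, if_neg hm.ne', if_pos hact, rs_succ]
  · intro m i a b hm hmi ha hb hev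
    have htopn : top (m + p2 i) = i := hB.top_add m i hmi
    have hpdn : pd (m + p2 i) = m := by
      refine (huniq (m + p2 i) m (Or.inl ?_)).symm
      rw [htopn]
    have hpos : 0 < m + p2 i := add_pos_of_pos_of_nonneg hm (zero_le' _)
    have hact : ¬ Act (m + p2 i) := by
      rw [hAct, hpdn, htopn]
      rintro ⟨a', _, b', _, ha', hb', hev'⟩
      apply hev
      have h1 : a' = a := by
        have : a' + la m = a + la m := by rw [add_comm a', add_comm a, ← ha', ← ha]
        exact add_cancel' this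
      have h2 : b' = b := by
        have : b' + la m = b + la m := by rw [add_comm b', add_comm b, ← hb', ← hb]
        exact add_cancel' this
      rw [h1, h2] at hev'
      exact hev'
    change rs hk (Φ (m + p2 i)) = rs hk (Φ m)
    rw [hΦs _ hpos, hst, hpdn, if_neg hm.ne', if_neg hact]

end Pool.Agent.T2h50.BT
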