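import Mathlib
import Pool.Agent.T2h50.BT.Base

/-!
The value of the colouring on sums of separated numbers and on doubles.
-/

namespace Pool.Agent.T2h50.BT

open Pool.Agent.Helper617.RM Pool.Agent.H645R2.R

universe u

set_option linter.unusedSectionVars false
set_option linter.unusedVariables false

variable {N : L2Structure.{u}} [IsModelRCA0 N] {k : ℕ} {p2 top la th : N.M → N.M}
  {W : N.M → N.M → Prop} {C : N.M → ZMod k}

/-- higher digits do not matter -/
theorem stab (hB : BinF p2 top la) (hE : Enum W) (hS : Sys k p2 top la th W C) {P M : N.M}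
    (hbd : Bd W P M) {m i : N.M} (hm : 0 < m) (hmi : m < p2 i) (hla : th (la m) ≤ P)
    (htop : la m + M ≤ top m) (q : N.M) : C (m + p2 i * q) = C m := by
  have key : ∀ b : N.M, ∀ q, q < b → C (m + p2 i * q) = C m := by
    intro b
    refine ind_S1 (P := fun b => ∀ q, q < b → C (m + p2 i * q) = C m) ?_ ?_ ?_ b
    · have : D1 (fun v : Ctx N => ∀ q, q < v 0 → C (m + p2 i * q) = C m) := by
        refine D1.ball (P := fun v q => C (m + p2 i * q) = C m) (DG.var 0) ?_
        exact hS.app (DG.add (DG.const _) (DG.mul (DG.const _) (DG.var 0))) _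
      exact this.1
    · intro q hq
      exact absurd hq (not_lt.2 (zero_le' q))
    · intro b ih q hq
      rcases (le_of_lt1 hq).lt_or_eq with h | rfl
      · exact ih q h
      · rcases (zero_le' q).lt_or_eq with hq0 | hq0
        · obtain ⟨q', hq', hqe⟩ : ∃ q', q' < p2 (top q) ∧ q = q' + p2 (top q) := by
            rcases hB.dec q hq0 with h | ⟨q', _, h1, h2⟩
            · exact ⟨0, hB.p2_pos _, by rw [zero_add]; exact h⟩
            · exact ⟨q', h1, h2⟩
          set j := top q with hj
          have hlt : q' < q := by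
            have := hB.p2_pos j
            conv_rhs => rw [hqe]
            exact lt_add_of_pos_right _ this
          have hC' := ih q' hlt
          have h1 : m + p2 i * q = (m + p2 i * q') + p2 (i + j) := by
            rw [hB.p2_add, hqe]; ring
          have h0 : 0 < m + p2 i * q' := lt_of_lt_of_le hm le_self_add
          have h2 : m + p2 i * q' < p2 (i + j) := by
            rw [hB.p2_add]
            calc m + p2 i * q' < p2 i + p2 i * q' := by gcongr
              _ = p2 i * (q' + 1) := by ring
              _ ≤ p2 i * p2 j := by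
                have := succ_le' hq'
                gcongr
          have h3 : la (m + p2 i * q') = la m := hB.la_add m i q' hm hmi
          have h4 : top m ≤ top (m + p2 i * q') := hB.top_mono _ _ hm le_self_add
          obtain ⟨d, hd⟩ := exists_sub (htop.trans h4)
          obtain ⟨b', hb'⟩ := exists_sub (hB.la_lt _ _ h0 h2).le
          have h5 : top (m + p2 i * q') = la (m + p2 i * q') + (M + d) := by
            rw [hd, h3]; ring
          have h6 : ¬ Ev W (th (la (m + p2 i * q'))) (M + d) b' := by
            rintro ⟨z, hz, hWb, hnWa⟩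
            rw [h3] at hz
            exact hnWa (hE.mono M (M + d) z le_self_add (hbd z (lt_of_lt_of_le hz hla) b' hWb))
          rw [h1, hS.add0 _ _ _ _ h0 h2 h5 hb' h6, hC']
        · rw [← hq0, mul_zero, add_zero]
  exact key (q + 1) q (lt1 q)

/-- the last gap -/
theorem gap (hB : BinF p2 top la) (hE : Enum W) (hC : Sys k p2 top la th W C) {P M : N.M}
    (hP : Bd W P M) {w i a : N.M} (hw : 0 < w) (hwi : w < p2 i) (hla : th (la w) ≤ P)
    (hi : la w + M ≤ i) (ha : top w = la w + a) {q : N.M} (hq : 0 < q) :
    (Ev W (th (la w)) a M → C (w + p2 i * q) = C w + 1) ∧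
      (¬ Ev W (th (la w)) a M → C (w + p2 i * q) = C w) := by
  obtain ⟨e, r, hqe⟩ := hB.low q hq
  obtain ⟨c, hc⟩ := exists_sub hi
  have hpe : (1 : N.M) ≤ p2 e := by
    have := succ_le' (hB.p2_pos e)
    simpa using this
  have hle : p2 i ≤ p2 (i + e) := by
    rw [hB.p2_add]
    calc p2 i = p2 i * 1 := by ring
      _ ≤ p2 i * p2 e := mul_le_mul' le_rfl hpe
  have hwie : w < p2 (i + e) := lt_of_lt_of_le hwi hle
  have hsum : w + p2 i * q = (w + p2 (i + e)) + p2 (i + e + 1) * r := by
    rw [hqe, add_assoc i e 1, hB.p2_add i e, hB.p2_add i (e + 1)]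
    ring
  have hla' : la (w + p2 (i + e)) = la w := by
    have := hB.la_add w (i + e) 1 hw hwie
    simpa using this
  have htop' : top (w + p2 (i + e)) = i + e := hB.top_add w (i + e) hwie
  have hlt : w + p2 (i + e) < p2 (i + e + 1) := by
    rw [hB.p2_succ]
    exact add_lt_add_left hwie _
  have hpos : 0 < w + p2 (i + e) := lt_of_lt_of_le hw (le_add_of_nonneg_right zero_le)
  have hstab : C ((w + p2 (i + e)) + p2 (i + e + 1) * r) = C (w + p2 (i + e)) := by
    refine stab hB hE hC hP hpos hlt ?_ ?_ r
    · rw [hla']; exact hla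
    · rw [hla', htop']
      exact le_trans hi (le_add_of_nonneg_right zero_le)
  have hb : i + e = la w + (M + c + e) := by
    rw [hc]; ring
  have hev : Ev W (th (la w)) a (M + c + e) ↔ Ev W (th (la w)) a M := by
    constructor
    · rintro ⟨z, hz, h1, h2⟩
      exact ⟨z, hz, hP z (lt_of_lt_of_le hz hla) _ h1, h2⟩
    · rintro ⟨z, hz, h1, h2⟩
      refine ⟨z, hz, hE.mono M _ z ?_ h1, h2⟩
      rw [add_assoc]
      exact le_add_of_nonneg_right zero_le
  rw [hsum, hstab]
  constructor
  · intro hv
    exact hC.add1 w (i + e) a (M + c + e) hw hwie ha hb (hev.2 hv)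
  · intro hv
    exact hC.add0 w (i + e) a (M + c + e) hw hwie ha hb (fun hx => hv (hev.1 hx))

/-- doubling, if the threshold does not change -/
theorem dbl (hB : BinF p2 top la) (hE : Enum W) (hthG : GF th) (hC : Sys k p2 top la th W C)
    [NeZero k] {w : N.M} (hw : 0 < w) (hth : th (la w + 1) = th (la w)) : C (w + w) = C w + 1 := by
  have hla := hB.hla
  have key : ∀ w, ¬ (0 < w ∧ (th (la w + 1) = th (la w) ∧ ¬ C (w + w) = C w + 1)) := by
    intro w hw
    have hD : D1 (fun v : Ctx N => 0 < v 0 ∧ (th (la (v 0) + 1) = th (la (v 0)) ∧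
        ¬ C (v 0 + v 0) = C (v 0) + 1)) := by
      refine D1.and (D1.lt (DG.const 0) (DG.var 0)) (D1.and ?_ (D1.not ?_))
      · exact D1.eq (DG.app hthG (DG.add (DG.app hla (DG.var 0)) (DG.const 1)))
          (DG.app hthG (DG.app hla (DG.var 0)))
      · refine (D1.finEx (ι := ZMod k) (P := fun c v => C (v 0 + v 0) = c + 1 ∧ C (v 0) = c)
          fun c => (hC.app (DG.add (DG.var 0) (DG.var 0)) _).and (hC.app (DG.var 0) _)).congr
          fun v => ?_
        constructor
        · rintro ⟨c, h1, h2⟩
          rw [h1, h2]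
        · intro h
          exact ⟨_, h, rfl⟩
    obtain ⟨w, -, ⟨hw0, hthw, hQ⟩, hmin⟩ := lnp_S1 (P := fun w => 0 < w ∧
      (th (la w + 1) = th (la w) ∧ ¬ C (w + w) = C w + 1)) hD.1 w hw
    apply hQ
    rcases hB.dec w hw0 with h | ⟨m, hm0, hm, h⟩
    · have h1 : w + w = p2 (top w + 1) := by
        rw [hB.p2_succ, ← h]
      rw [h1, hC.pow, ← h]
    · obtain ⟨i, hi⟩ : ∃ i, i = top w := ⟨_, rfl⟩
      rw [← hi] at hm h
      have hp0 : 0 < p2 i := hB.p2_pos i
      have hla : la w = la m := by
        have h1 := hB.la_add m i 1 hm0 hm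
        rw [mul_one, ← h] at h1
        exact h1
      rw [hla] at hthw
      obtain ⟨a', ha'⟩ := exists_sub (hB.la_le_top m hm0)
      obtain ⟨b', hb'⟩ := exists_sub (hB.la_lt m i hm0 hm).le
      have hmw : m < w := by
        rw [h]
        exact lt_add_of_pos_right m hp0
      have hIH : C (m + m) = C m + 1 := by
        by_contra hcon
        exact hmin m hmw ⟨hm0, hthw, hcon⟩
      have h2w : w + w = (m + m) + p2 (i + 1) := by
        rw [h, hB.p2_succ]
        exact add_add_add_comm _ _ _ _
      have h2m : m + m < p2 (i + 1) := by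
        rw [hB.p2_succ]
        exact add_lt_add hm hm
      have h2m0 : 0 < m + m := add_pos hm0 hm0
      have hla2 : la (m + m) = la m + 1 := hB.la_dbl m hm0
      have htop2 : top (m + m) = la (m + m) + a' := by
        rw [hB.top_dbl m hm0, hla2, ha']
        ring
      have hi2 : i + 1 = la (m + m) + b' := by
        rw [hla2, hb']
        ring
      have hthm : th (la (m + m)) = th (la m) := by rw [hla2, hthw]
      by_cases hev : Ev W (th (la m)) a' b'
      · have c1 : C w = C m + 1 := by
          rw [h]
          exact hC.add1 m i a' b' hm0 hm ha' hb' hev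
        have d1 : C (w + w) = C (m + m) + 1 := by
          rw [h2w]
          exact hC.add1 (m + m) (i + 1) a' b' h2m0 h2m htop2 hi2 (by rw [hthm]; exact hev)
        rw [d1, c1, hIH]
      · have c1 : C w = C m := by
          rw [h]
          exact hC.add0 m i a' b' hm0 hm ha' hb' hev
        have d1 : C (w + w) = C (m + m) := by
          rw [h2w]
          exact hC.add0 (m + m) (i + 1) a' b' h2m0 h2m htop2 hi2 (by rw [hthm]; exact hev)
        rw [d1, c1, hIH]
  by_contra hcon
  exact key w ⟨hw, hth, hcon⟩

end Pool.Agent.T2h50.BT
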