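import Mathlib
import Pool.Agent.T2h50.BT.Step

/-!
If the sums of at most `4 ^ (k - 1)` elements of `X` omit a colour, then `X` has elements with
arbitrarily high lowest position.
-/

namespace Pool.Agent.T2h50.BT

open Pool.Agent.Helper617.RM Pool.Agent.H645R2.R

universe u

set_option linter.unusedSectionVars false
set_option linter.unusedVariables false

variable {N : L2Structure.{u}} [IsModelRCA0 N] {k : ℕ} {p2 top la th : N.M → N.M}
  {W : N.M → N.M → Prop} {C : N.M → ZMod k}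

/-- many elements in one residue class -/
theorem many (hB : BinF p2 top la) {X : Set N.M} (hX : X ∈ N.Sets) (J b0 : N.M) (n : ℕ) :
    ∃ B, b0 ≤ B ∧ ∀ r, r < p2 J → (∃ y, y ∈ X ∧ B < y ∧ ∃ q, q < y + 1 ∧ y = r + p2 J * q) →
      ∃ l : List N.M, l.length = n ∧ l.Nodup ∧
        ∀ x ∈ l, x ∈ X ∧ b0 < x ∧ x ≤ B ∧ ∃ q, x = r + p2 J * q := by
  induction n with
  | zero =>
    refine ⟨b0, le_rfl, fun r _ _ => ⟨[], rfl, List.nodup_nil, ?_⟩⟩
    intro x hx
    exact absurd hx (List.not_mem_nil)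
  | succ n ih =>
    obtain ⟨B, hB0, hBl⟩ := ih
    have hp2 := hB.hp2
    have hQ : D0 (fun v : Ctx N => v 1 ∈ X ∧ B < v 1 ∧ ∃ q, q < v 1 + 1 ∧
        v 1 = v 0 + p2 J * q) := by
      have : D1 (fun v : Ctx N => v 1 ∈ X ∧ B < v 1 ∧ ∃ q, q < v 1 + 1 ∧
          v 1 = v 0 + p2 J * q) := by
        refine D1.and (D1.mem (DG.var 1) hX) (D1.and (D1.lt (DG.const _) (DG.var 1)) ?_)
        refine D1.bex (P := fun v q => v 1 = v 0 + p2 J * q)
          (DG.add (DG.var 1) (DG.const _)) ?_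
        exact D1.eq (DG.var 2) (DG.add (DG.var 1) (DG.mul (DG.const _) (DG.var 0)))
      exact d0_of_D1
        (R := fun r x => x ∈ X ∧ B < x ∧ ∃ q, q < x + 1 ∧ x = r + p2 J * q)
        this.1 this.2
    obtain ⟨B', hB'⟩ := strong_bounding
      (Q := fun r x => x ∈ X ∧ B < x ∧ ∃ q, q < x + 1 ∧ x = r + p2 J * q) hQ (p2 J)
    refine ⟨max B B', hB0.trans (le_max_left _ _), fun r hr hy => ?_⟩
    obtain ⟨y, hyX, hyB, hyq⟩ := hy
    have hyB1 : B < y := (le_max_left _ _).trans_lt hyB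
    obtain ⟨l, hl1, hl2, hl3⟩ := hBl r hr ⟨y, hyX, hyB1, hyq⟩
    obtain ⟨x, hxB', hxX, hxB, q, _, hxq⟩ := hB' r hr ⟨y, hyX, hyB1, hyq⟩
    refine ⟨x :: l, by simp [hl1], ?_, ?_⟩
    · rw [List.nodup_cons]
      refine ⟨fun hx => ?_, hl2⟩
      exact absurd (hl3 x hx).2.2.1 (not_le.2 hxB)
    · intro z hz
      rw [List.mem_cons] at hz
      rcases hz with rfl | hz
      · exact ⟨hxX, hB0.trans_lt hxB, (le_of_lt hxB').trans (le_max_right _ _), q, hxq⟩
      · obtain ⟨h1, h2, h3, h4⟩ := hl3 z hz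
        exact ⟨h1, h2, h3.trans (le_max_left _ _), h4⟩

/-- sums of elements of one residue class -/
theorem sum_form {w p e : N.M} {S : ℕ} (l : List N.M)
    (h : ∀ x ∈ l, ∃ q, 0 < e + (2 : N.M) ^ S * q ∧ x = w + p * (e + (2 : N.M) ^ S * q)) :
    ∃ Q, (l ≠ [] → 0 < e + (2 : N.M) ^ S * Q) ∧
      l.sum = (l.length : N.M) * w + p * ((l.length : N.M) * e + (2 : N.M) ^ S * Q) := by
  induction l with
  | nil => exact ⟨0, fun h => absurd rfl h, by simp⟩
  | cons x l ih =>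
    obtain ⟨Q, _, hQ⟩ := ih fun y hy => h y (List.mem_cons_of_mem _ hy)
    obtain ⟨q, hq0, hq⟩ := h x List.mem_cons_self
    refine ⟨q + Q, fun _ => ?_, ?_⟩
    · refine lt_of_lt_of_le hq0 ?_
      rw [mul_add, ← add_assoc]
      exact le_self_add
    · rw [List.sum_cons, hQ, hq, List.length_cons]
      push_cast
      ring

theorem p2_nat (hB : BinF p2 top la) (i : N.M) (j : ℕ) :
    p2 (i + (j : N.M)) = p2 i * (2 : N.M) ^ j := by
  induction j with
  | zero => simp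
  | succ j ih =>
    rw [Nat.cast_succ, ← add_assoc, hB.p2_succ, ih, pow_succ]
    ring

theorem chain (hB : BinF p2 top la) {w i a : N.M} (hw : 0 < w) (hwi : w < p2 i)
    (ha : top w = la w + a) (j : ℕ) :
    0 < (2 : N.M) ^ j * w ∧ (2 : N.M) ^ j * w < p2 (i + (j : N.M)) ∧
      la ((2 : N.M) ^ j * w) = la w + (j : N.M) ∧
      top ((2 : N.M) ^ j * w) = la ((2 : N.M) ^ j * w) + a := by
  induction j with
  | zero => simpa using ⟨hw, hwi, ha⟩
  | succ j ih =>
    obtain ⟨h1, h2, h3, h4⟩ := ih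
    have e : (2 : N.M) ^ (j + 1) * w = (2 : N.M) ^ j * w + (2 : N.M) ^ j * w := by
      rw [pow_succ]; ring
    have e3 : la ((2 : N.M) ^ (j + 1) * w) = la w + ((j + 1 : ℕ) : N.M) := by
      rw [e, hB.la_dbl _ h1, h3, Nat.cast_succ, add_assoc]
    refine ⟨?_, ?_, e3, ?_⟩
    · rw [e]; exact add_pos h1 h1
    · rw [e, Nat.cast_succ, ← add_assoc, hB.p2_succ]
      exact add_lt_add h2 h2
    · rw [e3, e, hB.top_dbl _ h1, h4, h3, Nat.cast_succ]
      ring

theorem chainC (hB : BinF p2 top la) (hE : Enum W) (hthG : GF th)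
    (hC : Sys k p2 top la th W C) [NeZero k] {w τ : N.M} (hw : 0 < w) {j0 t : ℕ}
    (hτ : ∀ s, s ≤ t → th (la w + ((j0 + s : ℕ) : N.M)) = τ) :
    C ((2 : N.M) ^ (j0 + t) * w) = C ((2 : N.M) ^ j0 * w) + (t : ZMod k) := by
  induction t with
  | zero => simp
  | succ t ih =>
    have ih' := ih fun s hs => hτ s (hs.trans (Nat.le_succ t))
    obtain ⟨a, ha⟩ := exists_sub (hB.la_le_top w hw)
    have hch := chain hB hw (hB.lt_top w) ha (j0 + t)
    have e : (2 : N.M) ^ (j0 + (t + 1)) * w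
        = (2 : N.M) ^ (j0 + t) * w + (2 : N.M) ^ (j0 + t) * w := by
      rw [← add_assoc, pow_succ]; ring
    have hd := dbl hB hE hthG hC hch.1 (by
      rw [hch.2.2.1]
      have e1 := hτ t (Nat.le_succ t)
      have e2 := hτ (t + 1) le_rfl
      rw [e1, ← e2]
      congr 1
      push_cast
      ring)
    rw [e, hd, ih']
    push_cast
    ring

theorem exists_block (hk : 0 < k) (hth : Th k th) (l : N.M) :
    ∃ j0 : ℕ, j0 < k ∧ ∃ τ, ∀ s, s < k → th (l + ((j0 + s : ℕ) : N.M)) = τ := by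
  obtain ⟨r, hr, q, hq⟩ := exists_res hk l
  rcases Nat.eq_zero_or_pos r with h0 | h0
  · refine ⟨0, hk, q, fun s hs => ?_⟩
    have := hth.mul_add_nat q hs
    rw [hq, h0]
    simpa using this
  · refine ⟨k - r, by omega, q + 1, fun s hs => ?_⟩
    have := hth.mul_add_nat (q + 1) hs
    rw [← this, hq]
    congr 1
    have e : ((k - r + s : ℕ) : N.M) + (r : N.M) = (k : N.M) + (s : N.M) := by
      have : k - r + s + r = k + s := by omega
      exact_mod_cast this
    calc (k : N.M) * q + (r : N.M) + ((k - r + s : ℕ) : N.M)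
        = (k : N.M) * q + (((k - r + s : ℕ) : N.M) + (r : N.M)) := by ring
      _ = (k : N.M) * q + ((k : N.M) + (s : N.M)) := by rw [e]
      _ = (k : N.M) * (q + 1) + (s : N.M) := by ring

theorem far (hk : 2 ≤ k) (hB : BinF p2 top la) (hE : Enum W) (hth : Th k th)
    (hC : Sys k p2 top la th W C) {X : Set N.M} (hX : X ∈ N.Sets)
    (hunb : ∀ b, ∃ x ∈ X, b < x) {c0 : ZMod k}
    (hthin : ∀ l : List N.M, l ≠ [] → l.length ≤ 4 ^ (k - 1) → l.Nodup → (∀ x ∈ l, x ∈ X) →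
      C l.sum ≠ c0) (b : N.M) : ∃ x ∈ X, 0 < x ∧ b < la x := by
  classical
  have : NeZero k := ⟨by omega⟩
  by_contra hcon
  have hcon' : ∀ x ∈ X, 0 < x → la x ≤ b := fun x hx h0 => by
    by_contra h
    exact hcon ⟨x, hx, h0, not_le.1 h⟩
  obtain ⟨S, hS⟩ : ∃ S, S = 2 * (k - 1) := ⟨_, rfl⟩
  obtain ⟨M, _, hM⟩ := bd N W hE (b + (S : N.M) + 1) 0
  obtain ⟨i, hi⟩ : ∃ i, i = b + M + 1 := ⟨_, rfl⟩
  obtain ⟨B, hB0, hBl⟩ := many hB hX (i + (S : N.M)) (p2 i) (2 ^ S)
  obtain ⟨y, hyX, hy⟩ := hunb B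
  obtain ⟨r, qy, hr, hyr⟩ := hB.modp y (i + (S : N.M))
  have hqy : qy < y + 1 := by
    apply lt1_of_le
    have h1 : 1 ≤ p2 (i + (S : N.M)) := by
      have := succ_le' (hB.p2_pos (i + (S : N.M)))
      rwa [zero_add] at this
    calc qy = 1 * qy := (one_mul _).symm
      _ ≤ p2 (i + (S : N.M)) * qy := by gcongr
      _ ≤ r + p2 (i + (S : N.M)) * qy := le_add_self
      _ = y := hyr.symm
  obtain ⟨l, hl1, hl2, hl3⟩ := hBl r hr ⟨y, hyX, hy, qy, hqy, hyr⟩
  obtain ⟨w, e, hw, hre⟩ := hB.modp r i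
  have hform : ∀ x ∈ l, ∃ q, 0 < e + (2 : N.M) ^ S * q ∧
      x = w + p2 i * (e + (2 : N.M) ^ S * q) := by
    intro x hx
    obtain ⟨hxX, hxp, _, q, hxq⟩ := hl3 x hx
    have hx1 : x = w + p2 i * (e + (2 : N.M) ^ S * q) := by
      rw [hxq, hre, p2_nat hB]; ring
    refine ⟨q, ?_, hx1⟩
    rcases (zero_le' (e + (2 : N.M) ^ S * q)).lt_or_eq with h | h
    · exact h
    · exfalso
      rw [← h, mul_zero, add_zero] at hx1
      rw [hx1] at hxp
      exact lt_asymm hxp hw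
  have hlne : l ≠ [] := by
    rintro rfl
    have : 0 < 2 ^ S := by positivity
    simp at hl1
    omega
  obtain ⟨x, hx⟩ := List.exists_mem_of_ne_nil l hlne
  obtain ⟨hxX, hxp, _, _, _⟩ := hl3 x hx
  obtain ⟨q, hq0, hxq⟩ := hform x hx
  have hx0 : 0 < x := (hB.p2_pos i).trans hxp
  have hw0 : 0 < w := by
    rcases (zero_le' w).lt_or_eq with h | h
    · exact h
    · exfalso
      rw [← h, zero_add] at hxq
      have h1 := hB.le_la i _ hq0
      rw [← hxq] at h1
      have h2 := hcon' x hxX hx0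
      have h3 : b + M + 1 ≤ b := by
        rw [← hi]
        exact h1.trans h2
      exact absurd h3 (not_le.2 (lt1_of_le le_self_add))
  have hlb : la w ≤ b := by
    have hla : la x = la w := by
      rw [hxq]
      exact hB.la_add w i _ hw0 hw
    rw [← hla]
    exact hcon' x hxX hx0
  obtain ⟨a, ha⟩ := exists_sub (hB.la_le_top w hw0)
  obtain ⟨j0, hj0, τ, hτ⟩ := exists_block (by omega : 0 < k) hth (la w)
  obtain ⟨δ, hδ⟩ : ∃ δ : ZMod k, δ = if Ev W τ a M then 1 else 0 := ⟨_, rfl⟩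
  obtain ⟨t, ht⟩ : ∃ t : ℕ, t = (c0 - δ - C ((2 : N.M) ^ j0 * w)).val := ⟨_, rfl⟩
  have htk : t < k := by rw [ht]; exact ZMod.val_lt _
  have htc : (t : ZMod k) = c0 - δ - C ((2 : N.M) ^ j0 * w) := by
    rw [ht, ZMod.natCast_zmod_val]
  obtain ⟨j, hj⟩ : ∃ j, j = j0 + t := ⟨_, rfl⟩
  have hjS : j ≤ S := by omega
  have hpow : 2 ^ j ≤ 2 ^ S := Nat.pow_le_pow_right (by norm_num) hjS
  have hlen : (l.take (2 ^ j)).length = 2 ^ j := by
    rw [List.length_take, hl1]
    exact min_eq_left hpow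
  have hne : l.take (2 ^ j) ≠ [] := by
    intro h
    rw [h] at hlen
    have : 0 < 2 ^ j := by positivity
    simp at hlen
    omega
  obtain ⟨Q, hQ0, hQ⟩ := sum_form (l.take (2 ^ j)) fun x hx => hform x (List.mem_of_mem_take hx)
  obtain ⟨c1, c2, c3, c4⟩ := chain hB hw0 hw ha j
  obtain ⟨d, hd⟩ : ∃ d, S = j + d := ⟨S - j, by omega⟩
  have hsum : (l.take (2 ^ j)).sum
      = (2 : N.M) ^ j * w + p2 (i + (j : N.M)) * (e + (2 : N.M) ^ d * Q) := by
    rw [hQ, hlen, p2_nat hB, hd, pow_add]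
    push_cast
    ring
  have hq'0 : 0 < e + (2 : N.M) ^ d * Q := by
    rcases (zero_le' e).lt_or_eq with he | he
    · exact he.trans_le le_self_add
    · rcases (zero_le' Q).lt_or_eq with hQ' | hQ'
      · have : (0 : N.M) < (2 : N.M) ^ d := by positivity
        exact add_pos_of_nonneg_of_pos (zero_le' _) (mul_pos this hQ')
      · exfalso
        have := hQ0 hne
        rw [← he, ← hQ'] at this
        simp at this
  have hthj : th (la ((2 : N.M) ^ j * w)) = τ := by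
    rw [c3, hj]
    exact hτ t htk
  have hP : Bd W (b + (S : N.M)) M := fun z hz s hs => hM z (hz.trans (lt1 _)) s hs
  have hjS' : (j : N.M) ≤ (S : N.M) := by exact_mod_cast hjS
  have hg := gap hB hE hC hP c1 c2 (i := i + (j : N.M)) (a := a) (by
      refine (hth.le_self (by omega) _).trans ?_
      rw [c3]
      exact add_le_add hlb hjS') (by
      rw [c3, hi]
      calc la w + (j : N.M) + M ≤ b + (j : N.M) + M := by gcongr
        _ = b + M + (j : N.M) := by ring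
        _ ≤ b + M + 1 + (j : N.M) := add_le_add le_self_add le_rfl) c4 hq'0
  rw [hthj, ← hsum] at hg
  have hCC := chainC hB hE hth.hth hC (w := w) (τ := τ) hw0 (j0 := j0) (t := t)
    (fun s hs => hτ s (lt_of_le_of_lt hs htk))
  rw [← hj] at hCC
  have hval : C (l.take (2 ^ j)).sum = C ((2 : N.M) ^ j * w) + δ := by
    rw [hδ]
    split_ifs with hev
    · exact hg.1 hev
    · rw [add_zero]; exact hg.2 hev
  refine hthin (l.take (2 ^ j)) hne ?_ (List.Nodup.sublist (List.take_sublist _ _) hl2) ?_ ?_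
  · rw [hlen]
    refine hpow.trans ?_
    rw [hS, pow_mul]
    norm_num
  · intro x hx
    exact (hl3 x (List.mem_of_mem_take hx)).1
  · rw [hval, hCC, htc]
    ring

end Pool.Agent.T2h50.BT
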