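import Mathlib
import Pool.Agent.T2h50.BT.Far

/-!
`Σ⁰₁` comprehension from sets whose sums omit a colour.
-/

namespace Pool.Agent.T2h50.BT

open Pool.Agent.Helper617.RM Pool.Agent.H645R2.R

universe u

set_option linter.unusedSectionVars false
set_option linter.unusedVariables false

variable {N : L2Structure.{u}} [IsModelRCA0 N] {k : ℕ} {p2 top la th : N.M → N.M}
  {W : N.M → N.M → Prop} {C : N.M → ZMod k}

/-- sums of `m + 1` elements of `X`, each far beyond the sum of the smaller ones -/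
def FF (p2 la : N.M → N.M) (X : Set N.M) : ℕ → N.M → Prop
  | 0, s => s ∈ X ∧ 0 < s
  | m + 1, s => ∃ s', s' < s ∧ ∃ y, y < s + 1 ∧
      (FF p2 la X m s' ∧ (y ∈ X ∧ (0 < y ∧ (s' < p2 (la y) ∧ s = s' + y))))

theorem FF_D1 (hp2 : GF p2) (hla : GF la) {X : Set N.M} (hX : X ∈ N.Sets) (m : ℕ) :
    D1 (fun v : Ctx N => FF p2 la X m (v 0)) := by
  induction m with
  | zero =>
    exact D1.and (D1.mem (DG.var 0) hX) (D1.lt (DG.const 0) (DG.var 0))
  | succ m ih =>
    have h1 : D1 (fun v : Ctx N => FF p2 la X m (v 1)) :=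
      D1.app1 (R := fun s => FF p2 la X m s) ih (DG.var 1)
    refine D1.bex (P := fun v s' => ∃ y, y < v 0 + 1 ∧
      (FF p2 la X m s' ∧ (y ∈ X ∧ (0 < y ∧ (s' < p2 (la y) ∧ v 0 = s' + y))))) (DG.var 0) ?_
    refine D1.bex (P := fun v y => (FF p2 la X m (v 0) ∧ (y ∈ X ∧ (0 < y ∧
      (v 0 < p2 (la y) ∧ v 1 = v 0 + y))))) (DG.add (DG.var 1) (DG.const 1)) ?_
    refine D1.and h1 (D1.and (D1.mem (DG.var 0) hX) (D1.and (D1.lt (DG.const 0) (DG.var 0))
      (D1.and ?_ ?_)))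
    · exact D1.lt (DG.var 1) (DG.app hp2 (DG.app hla (DG.var 0)))
    · exact D1.eq (DG.var 2) (DG.add (DG.var 1) (DG.var 0))

theorem p2la_le (hB : BinF p2 top la) {y : N.M} (hy : 0 < y) : p2 (la y) ≤ y := by
  obtain ⟨q, hq⟩ := hB.la_eq y hy
  have hq1 : (1 : N.M) ≤ q + q + 1 := le_add_self
  calc p2 (la y) = p2 (la y) * 1 := (mul_one _).symm
    _ ≤ p2 (la y) * (q + q + 1) := mul_le_mul_of_nonneg_left hq1 (zero_le' _)
    _ = y := hq.symm

theorem FF_list (hB : BinF p2 top la) {X : Set N.M} {m : ℕ} {s : N.M} (h : FF p2 la X m s) :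
    0 < s ∧ ∃ l : List N.M, l.length = m + 1 ∧ l.Nodup ∧ (∀ x ∈ l, x ∈ X ∧ x ≤ s) ∧
      l.sum = s := by
  induction m generalizing s with
  | zero =>
    refine ⟨h.2, [s], rfl, List.nodup_singleton _, ?_, by simp⟩
    intro x hx
    rw [List.mem_singleton] at hx
    rw [hx]
    exact ⟨h.1, le_rfl⟩
  | succ m ih =>
    obtain ⟨s', _, y, _, h1, h2, h3, h4, h5⟩ := h
    obtain ⟨h0, l, hl1, hl2, hl3, hl4⟩ := ih h1
    have hy : s' < y := h4.trans_le (p2la_le hB h3)
    refine ⟨by rw [h5]; exact add_pos h0 h3, y :: l, by simp [hl1], ?_, ?_, ?_⟩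
    · rw [List.nodup_cons]
      refine ⟨fun hyl => ?_, hl2⟩
      exact absurd (hl3 y hyl).2 (not_le.2 hy)
    · intro x hx
      rw [List.mem_cons] at hx
      rcases hx with rfl | hx
      · exact ⟨h2, by rw [h5]; exact le_add_self⟩
      · obtain ⟨e1, e2⟩ := hl3 x hx
        exact ⟨e1, e2.trans (by rw [h5]; exact le_self_add)⟩
    · rw [List.sum_cons, hl4, h5, add_comm]

/-- all relevant stages are bounded -/
def Settled (top la th : N.M → N.M) (W : N.M → N.M → Prop) (s : N.M) : Prop :=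
  ∀ a, top s = la s + a → Bd W (th (la s)) a

/-- the data -/
structure Dat (k : ℕ) (p2 top la th : N.M → N.M) (W : N.M → N.M → Prop) (C : N.M → ZMod k)
    (X : Set N.M) (c0 : ZMod k) : Prop where
  hk : 2 ≤ k
  hB : BinF p2 top la
  hE : Enum W
  hth : Th k th
  hC : Sys k p2 top la th W C
  hX : X ∈ N.Sets
  far : ∀ b, ∃ x ∈ X, 0 < x ∧ b < la x
  hthin : ∀ l : List N.M, l ≠ [] → l.length ≤ k → l.Nodup → (∀ x ∈ l, x ∈ X) → C l.sum ≠ c0

theorem le_four_pow (k : ℕ) (hk : 2 ≤ k) : k ≤ 4 ^ (k - 1) := by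
  obtain ⟨n, rfl⟩ : ∃ n, k = n + 1 := ⟨k - 1, by omega⟩
  rw [Nat.add_sub_cancel]
  have : n < 4 ^ n := Nat.lt_pow_self (by norm_num)
  omega

variable {X : Set N.M} {c0 : ZMod k}

theorem Dat.ne (D : Dat k p2 top la th W C X c0) {m : ℕ} (hm : m < k) {s : N.M}
    (h : FF p2 la X m s) : C s ≠ c0 := by
  obtain ⟨_, l, hl1, hl2, hl3, hl4⟩ := FF_list D.hB h
  have hlne : l ≠ [] := by
    rintro rfl
    simp at hl1
  have := D.hthin l hlne (by rw [hl1]; exact Nat.succ_le_of_lt hm)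
    hl2 (fun x hx => (hl3 x hx).1)
  rwa [hl4] at this

/-- a sum that is not settled can be prolonged, which adds one to the colour -/
theorem Dat.up (D : Dat k p2 top la th W C X c0) {m : ℕ} {s : N.M} (h : FF p2 la X m s)
    (hs : ¬ Settled top la th W s) :
    ∃ s', FF p2 la X (m + 1) s' ∧ la s' = la s ∧ C s' = C s + 1 := by
  have hF := D.hB
  unfold Settled at hs
  push Not at hs
  obtain ⟨a, hta, hna⟩ := hs
  unfold Bd at hna
  push Not at hna
  obtain ⟨z, hz, s0, hs0, hna⟩ := hna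
  obtain ⟨M, hsM, hM⟩ := bd N W D.hE (th (la s)) s0
  obtain ⟨y, hyX, hypos, hl⟩ := D.far (la s + M + top s + s)
  have hpos := (FF_list hF h).1
  have hWM : W M z := hM z hz s0 hs0
  have e0 : la s + M + top s + s + 1 ≤ la y := add_one_le_iff'.2 hl
  have z1 : (0 : N.M) ≤ la s := zero_le' _
  have z2 : (0 : N.M) ≤ M := zero_le' _
  have z3 : (0 : N.M) ≤ top s := zero_le' _
  have z4 : (0 : N.M) ≤ s := zero_le' _
  have e1 : top s + 1 ≤ la y := by grind
  have e2 : la s + M ≤ la y := by grind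
  have e3 : s < p2 (la y) := by
    refine lt_of_lt_of_le (hF.lt_top s) ?_
    rcases lt_or_eq_of_le e1 with e | e
    · exact (hF.p2_lt _ _ e).le
    · rw [e]
  obtain ⟨q, hq⟩ := hF.la_eq y hypos
  have hq1 : (1 : N.M) ≤ q + q + 1 := le_add_self
  have hq0 : (0 : N.M) < q + q + 1 := lt_of_lt_of_le zero_lt_one hq1
  refine ⟨s + y, ⟨s, lt_add_of_pos_right _ hypos, y, lt1_of_le le_add_self, h, hyX, hypos, e3,
    rfl⟩, ?_, ?_⟩
  · have := hF.la_add s (la y) (q + q + 1) hpos e3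
    rwa [← hq] at this
  · have h1 := (gap hF D.hE D.hC hM hpos e3 le_rfl e2 hta hq0).1 ⟨z, hz, hWM, hna⟩
    rwa [← hq] at h1

/-- unsettled sums of at most `t` elements do not have the colours from `c0 + t` on -/
def St (k : ℕ) (p2 top la th : N.M → N.M) (W : N.M → N.M → Prop) (C : N.M → ZMod k)
    (X : Set N.M) (c0 : ZMod k) (t : ℕ) : Prop :=
  ∃ b0, ∀ m, m < t → ∀ s, FF p2 la X m s → b0 < la s → ¬ Settled top la th W s →
    ∀ j : ℕ, t ≤ j → j < k → C s ≠ c0 + (j : ZMod k)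

theorem Dat.st_last (D : Dat k p2 top la th W C X c0) :
    St k p2 top la th W C X c0 (k - 1) := by
  have hk := D.hk
  refine ⟨0, fun m hm s hs _ hu j hj hjk hc => ?_⟩
  obtain ⟨s', h1, -, h3⟩ := D.up hs hu
  refine D.ne (by omega) h1 ?_
  rw [h3, hc]
  have : j + 1 = k := by omega
  have h4 : ((j + 1 : ℕ) : ZMod k) = 0 := by rw [this]; simp
  push_cast at h4
  rw [add_assoc, h4, add_zero]

/-- the conclusion from a family of settled numbers -/
theorem Dat.done (D : Dat k p2 top la th W C X c0) {P : N.M → Prop}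
    (hP : S1 (fun v : Ctx N => P (v 0))) (hPW : ∀ z, P z ↔ ∃ s, W s z) {E : N.M → Prop}
    (hE : D1 (fun v : Ctx N => E (v 0))) (hE0 : ∀ s, E s → 0 < s)
    (hE1 : ∀ b, ∃ s, E s ∧ b < la s)
    (hE2 : ∀ s, E s → Settled top la th W s) : {n | P n} ∈ N.Sets := by
  refine comp_D1 hP ?_
  have hk := D.hk
  have hB := D.hB
  have htop : GF top := hB.htop
  have hla : GF la := hB.hla
  have hth : GF th := D.hth.hth
  have hWD : ∀ {s t : Ctx N → N.M}, DG s → DG t → D1 (fun v => W (s v) (t v)) :=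
    fun hs ht => D1.app2 (R := W) (D1.of D.hE.hW) hs ht
  refine S1.congr (R := fun v => ∃ h, ∃ a, (E h ∧ (v 0 < th (la h) ∧
    (top h = la h + a ∧ ¬ W a (v 0))))) ?_ fun v => ?_
  · refine S1.ex (S1.ex ?_)
    refine (D1.and (D1.app1 (R := fun s => E s) hE (DG.var 1))
      (D1.and (D1.lt (DG.var 2) (DG.app hth (DG.app hla (DG.var 1))))
      (D1.and (D1.eq (DG.app htop (DG.var 1))
      (DG.add (DG.app hla (DG.var 1)) (DG.var 0))) (hWD (DG.var 0) (DG.var 2)).not))).1
  · constructor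
    · rintro ⟨h, a, h1, h3, h4, h5⟩ hPv
      obtain ⟨s, hs⟩ := (hPW _).1 hPv
      exact h5 (hE2 h h1 a h4 _ h3 s hs)
    · intro hPv
      obtain ⟨h, h1, h2⟩ := hE1 ((k : N.M) * (v 0 + 1))
      obtain ⟨a, ha⟩ := exists_sub (hB.la_le_top h (hE0 h h1))
      refine ⟨h, a, h1, ?_, ha, fun h5 => hPv ((hPW _).2 ⟨a, h5⟩)⟩
      by_contra hlt
      rw [not_lt] at hlt
      have h6 := D.hth.lt (la h)
      have h7 : (k : N.M) * th (la h) ≤ (k : N.M) * v 0 :=
        mul_le_mul_of_nonneg_left hlt (zero_le' _)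
      have h8 : la h < (k : N.M) * (v 0 + 1) := by
        refine h6.trans_le ?_
        rw [mul_add, mul_one]
        exact add_le_add h7 le_rfl
      exact lt_asymm h2 h8

theorem Dat.main (D : Dat k p2 top la th W C X c0) {P : N.M → Prop}
    (hP : S1 (fun v : Ctx N => P (v 0))) (hPW : ∀ z, P z ↔ ∃ s, W s z) :
    {n | P n} ∈ N.Sets := by
  classical
  have hk := D.hk
  have : NeZero k := ⟨by omega⟩
  have hB := D.hB
  have hp2 : GF p2 := hB.hp2
  have hla : GF la := hB.hla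
  have key : ∀ t, 1 ≤ t → t ≤ k - 1 → St k p2 top la th W C X c0 t → {n | P n} ∈ N.Sets := by
    intro t ht1
    induction t, ht1 using Nat.le_induction with
    | base =>
      rintro - ⟨b0, hb0⟩
      refine D.done hP hPW (E := fun s => FF p2 la X 0 s ∧ b0 < la s) ?_ ?_ ?_ ?_
      · exact D1.and (FF_D1 hp2 hla D.hX 0) (D1.lt (DG.const _) (DG.app hla (DG.var 0)))
      · intro s hs
        exact hs.1.2
      · intro b
        obtain ⟨x, hxX, hx0, hx⟩ := D.far (max b b0)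
        exact ⟨x, ⟨⟨hxX, hx0⟩, (le_max_right _ _).trans_lt hx⟩, (le_max_left _ _).trans_lt hx⟩
      · rintro s ⟨hs, hbs⟩
        by_contra hu
        have h1 := D.ne (by omega) hs
        have h2 := hb0 0 (by omega) s hs hbs hu (C s - c0).val ?_ (ZMod.val_lt _)
        · rw [ZMod.natCast_zmod_val] at h2
          exact h2 (by ring)
        · rw [Nat.one_le_iff_ne_zero]
          intro h3
          rw [ZMod.val_eq_zero] at h3
          exact h1 (sub_eq_zero.1 h3)
    | succ t ht ih =>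
      intro htk hSt
      by_cases h : St k p2 top la th W C X c0 t
      · exact ih (by omega) h
      · obtain ⟨b1, hb1⟩ := hSt
        unfold St at h
        push Not at h
        refine D.done hP hPW (E := fun s => b1 < la s ∧ C s = c0 + ((t + 1 : ℕ) : ZMod k) ∧
          ∃ m : Fin (t + 1), FF p2 la X m s) ?_ ?_ ?_ ?_
        · refine D1.and (D1.lt (DG.const _) (DG.app hla (DG.var 0)))
            (D1.and (D.hC.app (DG.var 0) _) ?_)
          exact D1.finEx (ι := Fin (t + 1)) (P := fun m v => FF p2 la X m (v 0))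
            fun m => FF_D1 hp2 hla D.hX m
        · rintro s ⟨-, -, m, hm⟩
          exact (FF_list hB hm).1
        · intro b
          obtain ⟨m, hm, s, hs, hbs, hu, j, hj1, hj2, hcs⟩ := h (max b b1)
          have hjt : j = t := by
            by_contra hjt
            exact hb1 m (by omega) s hs ((le_max_right _ _).trans_lt hbs) hu j (by omega) hj2 hcs
          obtain ⟨s', h1, h2, h3⟩ := D.up hs hu
          refine ⟨s', ⟨?_, ?_, ⟨m + 1, by omega⟩, h1⟩, ?_⟩
          · rw [h2]; exact (le_max_right _ _).trans_lt hbs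
          · rw [h3, hcs, hjt]
            push_cast
            ring
          · rw [h2]; exact (le_max_left _ _).trans_lt hbs
        · rintro s ⟨hbs, hcs, m, hm⟩
          by_contra hu
          exact hb1 m m.2 s hm hbs hu (t + 1) le_rfl (by omega) hcs
  exact key (k - 1) (by omega) le_rfl D.st_last

/-- the enumeration of a `Σ⁰₁` set -/
theorem exists_enum {P : N.M → Prop} (hP : ∃ Q : Ctx N → N.M → Prop,
    D0 (fun w => Q (tail w) (w 0)) ∧ ∀ v, P (v 0) ↔ ∃ s, Q v s) :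
    ∃ W : N.M → N.M → Prop, Enum W ∧ ∀ z, P z ↔ ∃ s, W s z := by
  obtain ⟨Q, hQ, hPQ⟩ := hP
  let W : N.M → N.M → Prop := fun s z => ∃ s', s' < s + 1 ∧ Q (cons z (fun _ => (0 : N.M))) s'
  have hPW : ∀ z, P z ↔ ∃ s, W s z := by
    intro z
    have h1 := hPQ (cons z (fun _ => (0 : N.M)))
    constructor
    · intro h
      obtain ⟨s, hs⟩ := h1.1 h
      exact ⟨s, s, lt1 s, hs⟩
    · rintro ⟨s, s', _, hs'⟩
      exact h1.2 ⟨s', hs'⟩
  have hW : Enum W := by
    constructor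
    · refine D0.bex ((Tm.var 0).add Tm.one) ?_
      exact D0.comp (R := fun w => Q (tail w) (w 0)) hQ
        (g := fun w => cons (w 0) (cons (w 2) (fun _ => (0 : N.M))))
        (CM.cons (Tm.var 0) (CM.cons (Tm.var 2) (fun _ => Tm.zero)))
    · rintro s t z hst ⟨s', h1, h2⟩
      exact ⟨s', lt_of_lt_of_le h1 (by gcongr), h2⟩
  exact ⟨W, hW, hPW⟩

/-- if for every colouring with `k` colours there is an unbounded set such that the sums of at
most `4 ^ (k - 1)` distinct elements omit a colour, then `Σ⁰₁` comprehension holds -/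
theorem thin_rev (k : ℕ) (hk : 2 ≤ k) (N : L2Structure.{u}) [IsModelRCA0 N]
    (H : ∀ C : N.M → ZMod k, (∀ j, D0 (fun v : Ctx N => C (v 0) = j)) →
      ∃ X ∈ N.Sets, (∀ b, ∃ x ∈ X, b < x) ∧ ∃ c0 : ZMod k, ∀ l : List N.M, l ≠ [] →
        l.length ≤ 4 ^ (k - 1) → l.Nodup → (∀ x ∈ l, x ∈ X) → C l.sum ≠ c0) : Sig1 N := by
  constructor
  intro P hP
  obtain ⟨p2, top, la, hB0⟩ := bin N
  have hB : BinF p2 top la := binf N p2 top la (binp N p2 top la hB0)
  obtain ⟨th, hth⟩ := exists_th (N := N) (k := k) (by omega)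
  obtain ⟨W, hW, hPW⟩ := exists_enum hP
  obtain ⟨C, hC⟩ := exists_sys (k := k) (by omega) hB hth hW
  obtain ⟨X, hX, hunb, c0, hthin⟩ := H C hC.hC
  exact Dat.main (c0 := c0) ⟨hk, hB, hW, hth, hC, hX, BT.far hk hB hW hth hC hX hunb hthin,
    fun l h1 h2 => hthin l h1 (h2.trans (le_four_pow k hk))⟩ hP hPW

end Pool.Agent.T2h50.BT
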