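import Mathlib
import Pool.Agent.T2h50.BT.Main

/-!
A colouring by the lowest digits: the sums of `1, …, n` elements of a set whose elements have
bounded lowest position have `n` different colours.
-/

namespace Pool.Agent.T2h50.BT

open Pool.Agent.Helper617.RM Pool.Agent.H645R2.R

universe u

set_option linter.unusedSectionVars false
set_option linter.unusedVariables false

variable {N : L2Structure.{u}} [IsModelRCA0 N] {k : ℕ} {p2 top la th : N.M → N.M}
  {W : N.M → N.M → Prop} {C : N.M → ZMod k}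

theorem rs_add_nat (hk : 0 < k) (x : N.M) (j : ℕ) : rs hk (x + (j : N.M)) = rs hk x + (j : ZMod k) := by
  induction j with
  | zero => simp
  | succ j ih =>
    rw [Nat.cast_succ, ← add_assoc, rs_succ, ih]
    push_cast
    ring

theorem rs_add_mul (hk : 0 < k) (x y : N.M) : rs hk (x + (k : N.M) * y) = rs hk x := by
  obtain ⟨j, hj, q, hq⟩ := exists_res hk x
  rw [rs_eq hk hj hq, rs_eq hk (q := q + y) hj (by rw [hq]; ring)]

theorem rs_add (hk : 0 < k) (x y : N.M) : rs hk (x + y) = rs hk x + rs hk y := by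
  obtain ⟨j, hj, q, hq⟩ := exists_res hk y
  have e : x + y = (x + (k : N.M) * q) + (j : N.M) := by rw [hq]; ring
  rw [e, rs_add_nat, rs_add_mul, rs_eq hk hj hq]

theorem rs_zero (hk : 0 < k) : rs hk (0 : N.M) = 0 := by
  rw [rs_eq hk (j := 0) (q := 0) hk (by simp)]
  simp

theorem rs_one (hk : 0 < k) : rs hk (1 : N.M) = 1 := by
  have := rs_succ hk (0 : N.M)
  rwa [zero_add, rs_zero, zero_add] at this

theorem rs_nat_mul (hk : 0 < k) (j : ℕ) (x : N.M) :
    rs hk ((j : N.M) * x) = (j : ZMod k) * rs hk x := by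
  induction j with
  | zero => simp [rs_zero hk]
  | succ j ih =>
    rw [Nat.cast_succ, add_mul, one_mul, rs_add, ih]
    push_cast
    ring

/-- the odd part -/
theorem exists_od (hB : BinF p2 top la) :
    ∃ od : N.M → N.M, GF od ∧ ∀ a y, Odd y → od (p2 a * y) = y := by
  have hp2 := hB.hp2
  have hla := hB.hla
  have hex : ∀ x : N.M, ∃ y, (0 < x ∧ x = p2 (la x) * y) ∨ (x = 0 ∧ y = 0) := by
    intro x
    by_cases hx : x = 0
    · exact ⟨0, Or.inr ⟨hx, rfl⟩⟩
    · obtain ⟨q, hq⟩ := hB.la_eq x (Helper617.RM.pos_of_ne_zero hx)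
      exact ⟨_, Or.inl ⟨Helper617.RM.pos_of_ne_zero hx, hq⟩⟩
  choose od hod using hex
  have huniq : ∀ x y, ((0 < x ∧ x = p2 (la x) * y) ∨ (x = 0 ∧ y = 0)) → y = od x := by
    intro x y h
    rcases h with ⟨h1, h2⟩ | ⟨h1, h2⟩
    · rcases hod x with ⟨h3, h4⟩ | ⟨h3, h4⟩
      · have h5 : p2 (la x) * y = p2 (la x) * od x := h2.symm.trans h4
        exact mul_left_cancel₀ (hB.p2_pos _).ne' h5
      · exact absurd h3 h1.ne'
    · rcases hod x with ⟨h3, h4⟩ | ⟨h3, h4⟩
      · exact absurd h1 h3.ne'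
      · rw [h2, h4]
  refine ⟨od, ?_, ?_⟩
  · refine GF.graph (D1.congr (R := fun v => (0 < v 0 ∧ v 0 = p2 (la (v 0)) * v 1) ∨
      (v 0 = 0 ∧ v 1 = 0)) ?_ ?_)
    · refine D1.or (D1.and (D1.lt (DG.const 0) (DG.var 0)) (D1.eq (DG.var 0) (DG.mul ?_
        (DG.var 1)))) (D1.and (D1.eq (DG.var 0) (DG.const 0)) (D1.eq (DG.var 1) (DG.const 0)))
      exact DG.app hp2 (DG.app hla (DG.var 0))
    · intro v
      exact ⟨fun h' => huniq _ _ h', fun h' => by rw [h']; exact hod _⟩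
  · rintro a y ⟨q, hq⟩
    have h1 : p2 a * y = p2 a * (q + q + 1) := by rw [hq]; ring
    have h2 : la (p2 a * y) = a := hB.la_unique _ a q h1
    refine (huniq _ _ (Or.inl ⟨?_, ?_⟩)).symm
    · rw [hq]
      exact mul_pos (hB.p2_pos _) (lt_of_lt_of_le zero_lt_one le_add_self)
    · rw [h2]

theorem la_odd (hB : BinF p2 top la) (a y : N.M) (hy : Odd y) : la (p2 a * y) = a := by
  obtain ⟨q, hq⟩ := hy
  exact hB.la_unique _ a q (by rw [hq]; ring)

/-- the lowest position is unbounded if `n` sums do not get `n` colours -/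
theorem far2 (hB : BinF p2 top la) {od : N.M → N.M} (hod : ∀ a y, Odd y → od (p2 a * y) = y)
    {X : Set N.M} (hX : X ∈ N.Sets) (hunb : ∀ b, ∃ x ∈ X, b < x) {n s : ℕ} (hn : n < 2 ^ s)
    (hs : 0 < s)
    (hcol : ¬ ∃ f : Fin n → List N.M, (∀ t, f t ≠ [] ∧ (f t).length ≤ n ∧ (f t).Nodup ∧
      ∀ x ∈ f t, x ∈ X) ∧ Function.Injective fun t =>
        (rs hs (la (f t).sum), rs (k := 2 ^ s) (by positivity) (od (f t).sum)))
    (b : N.M) : ∃ x ∈ X, 0 < x ∧ b < la x := by
  classical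
  have h2s : 0 < 2 ^ s := by positivity
  by_contra hcon
  have hcon' : ∀ x ∈ X, 0 < x → la x ≤ b := fun x hx h0 => by
    by_contra h
    exact hcon ⟨x, hx, h0, not_le.1 h⟩
  apply hcol
  rcases Nat.eq_zero_or_pos n with hn0 | hn0
  · subst hn0
    exact ⟨fun t => t.elim0, fun t => t.elim0, fun t => t.elim0⟩
  obtain ⟨i, hi⟩ : ∃ i, i = b + ((s + s : ℕ) : N.M) := ⟨_, rfl⟩
  obtain ⟨B, hB0, hBl⟩ := many hB hX i (p2 i) n
  obtain ⟨y, hyX, hy⟩ := hunb B
  obtain ⟨w, qy, hr, hyr⟩ := hB.modp y i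
  have hqy : qy < y + 1 := by
    apply lt1_of_le
    have h1 : 1 ≤ p2 i := by
      have := succ_le' (hB.p2_pos i)
      rwa [zero_add] at this
    calc qy = 1 * qy := (one_mul _).symm
      _ ≤ p2 i * qy := by gcongr
      _ ≤ w + p2 i * qy := le_add_self
      _ = y := hyr.symm
  obtain ⟨l, hl1, hl2, hl3⟩ := hBl w hr ⟨y, hyX, hy, qy, hqy, hyr⟩
  have hform : ∀ x ∈ l, ∃ q, 0 < (0 : N.M) + (2 : N.M) ^ 0 * q ∧
      x = w + p2 i * ((0 : N.M) + (2 : N.M) ^ 0 * q) := by
    intro x hx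
    obtain ⟨hxX, hxp, _, q, hxq⟩ := hl3 x hx
    refine ⟨q, ?_, by rw [hxq]; ring⟩
    rcases (zero_le' q).lt_or_eq with h | h
    · simpa using h
    · exfalso
      rw [← h, mul_zero, add_zero] at hxq
      rw [hxq] at hxp
      exact lt_asymm hxp hr
  have hlne : l ≠ [] := by
    rintro rfl
    simp at hl1
    omega
  obtain ⟨x, hx⟩ := List.exists_mem_of_ne_nil l hlne
  obtain ⟨hxX, hxp, _, _, _⟩ := hl3 x hx
  obtain ⟨q, hq0, hxq⟩ := hform x hx
  have hx0 : 0 < x := (hB.p2_pos i).trans hxp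
  have hw0 : 0 < w := by
    rcases (zero_le' w).lt_or_eq with h | h
    · exact h
    · exfalso
      rw [← h, zero_add] at hxq
      have h1 := hB.le_la i _ hq0
      rw [← hxq] at h1
      have h2 := hcon' x hxX hx0
      have h3 : b + ((s + s : ℕ) : N.M) ≤ b := by
        rw [← hi]
        exact h1.trans h2
      have h4 : (0 : N.M) < ((s + s : ℕ) : N.M) := by exact_mod_cast (by omega : 0 < s + s)
      exact absurd h3 (not_le.2 (lt_add_of_pos_right _ h4))
  have hlb : la w ≤ b := by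
    have hla : la x = la w := by
      rw [hxq]
      exact hB.la_add w i _ hw0 hr
    rw [← hla]
    exact hcon' x hxX hx0
  obtain ⟨o', ho'⟩ := hB.la_eq w hw0
  obtain ⟨o, ho⟩ : ∃ o, o = o' + o' + 1 := ⟨_, rfl⟩
  have hodd : Odd o := ⟨o', by rw [ho]; ring⟩
  rw [← ho] at ho'
  obtain ⟨c, hc⟩ := exists_sub hlb
  -- the sum of `j = 2 ^ v * u` elements
  have key : ∀ v u : ℕ, Odd u → 2 ^ v * u ≤ n → 0 < 2 ^ v * u →
      la (l.take (2 ^ v * u)).sum = la w + (v : N.M) ∧
      rs (k := 2 ^ s) h2s (od (l.take (2 ^ v * u)).sum) = (u : ZMod (2 ^ s)) * rs h2s o := by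
    intro v u hu hle hpos
    have hlen : (l.take (2 ^ v * u)).length = 2 ^ v * u := by
      rw [List.length_take, hl1]
      exact min_eq_left hle
    obtain ⟨Q, -, hQ⟩ := sum_form (l.take (2 ^ v * u)) fun x hx =>
      hform x (List.mem_of_mem_take hx)
    have hv : v < s := by
      have h1 : 2 ^ v ≤ 2 ^ v * u := Nat.le_mul_of_pos_right _ (hu.pos)
      exact (Nat.pow_lt_pow_iff_right (by norm_num)).1 (lt_of_le_of_lt (h1.trans hle) hn)
    obtain ⟨d, hd⟩ : ∃ d, s = v + d := ⟨s - v, by omega⟩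
    have hsum : (l.take (2 ^ v * u)).sum
        = p2 (la w + (v : N.M)) * ((u : N.M) * o + ((2 ^ s : ℕ) : N.M) *
          ((2 : N.M) ^ d * (p2 c * Q))) := by
      rw [hQ, hlen, hi, hc, p2_nat hB (la w) v]
      have e1 : p2 (la w + c + ((s + s : ℕ) : N.M)) = p2 (la w) * p2 c * (2 : N.M) ^ (s + s) := by
        rw [p2_nat hB, hB.p2_add]
      rw [e1]
      have e2 : (2 : N.M) ^ (s + s) = (2 : N.M) ^ s * ((2 : N.M) ^ v * (2 : N.M) ^ d) := by
        rw [← pow_add, ← hd, ← pow_add]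
      rw [e2]
      have e3 : ((2 ^ v * u : ℕ) : N.M) * w = ((2 ^ v * u : ℕ) : N.M) * (p2 (la w) * o) :=
        congrArg _ ho'
      rw [e3]
      push_cast
      ring
    have hodd' : Odd ((u : N.M) * o + ((2 ^ s : ℕ) : N.M) * ((2 : N.M) ^ d * (p2 c * Q))) := by
      have h1 : Odd ((u : N.M) * o) := by
        refine Odd.mul ?_ hodd
        obtain ⟨r, hr⟩ := hu
        exact ⟨(r : N.M), by rw [hr]; push_cast; ring⟩
      refine h1.add_even ?_
      obtain ⟨s', hs'⟩ : ∃ s', s = s' + 1 := ⟨s - 1, by omega⟩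
      refine ⟨((2 ^ s' : ℕ) : N.M) * ((2 : N.M) ^ d * (p2 c * Q)), ?_⟩
      rw [hs', pow_succ]
      push_cast
      ring
    refine ⟨?_, ?_⟩
    · rw [hsum]
      exact la_odd hB _ _ hodd'
    · rw [hsum, hod _ _ hodd', rs_add_mul, rs_nat_mul]
  refine ⟨fun t => l.take (t + 1), fun t => ⟨?_, ?_, ?_, ?_⟩, ?_⟩
  · intro h
    have : (l.take (t + 1 : ℕ)).length = t + 1 := by
      rw [List.length_take, hl1]
      exact min_eq_left t.2
    have h' : l.take (t + 1 : ℕ) = [] := h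
    rw [h'] at this
    simp at this
  · rw [List.length_take, hl1]
    exact min_le_right _ _
  · exact List.Nodup.sublist (List.take_sublist _ _) hl2
  · intro x hx
    exact (hl3 x (List.mem_of_mem_take hx)).1
  · intro t t' htt
    obtain ⟨v, u, hu, hvu⟩ := Nat.exists_eq_two_pow_mul_odd (n := (t : ℕ) + 1) (by omega)
    obtain ⟨v', u', hu', hvu'⟩ := Nat.exists_eq_two_pow_mul_odd (n := (t' : ℕ) + 1) (by omega)
    obtain ⟨h1, h2⟩ := Prod.ext_iff.1 htt
    simp only at h1 h2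
    have ht := t.2
    have ht' := t'.2
    obtain ⟨k1, k2⟩ := key v u hu (by rw [← hvu]; omega) (by rw [← hvu]; omega)
    obtain ⟨k1', k2'⟩ := key v' u' hu' (by rw [← hvu']; omega) (by rw [← hvu']; omega)
    rw [hvu, hvu', k1, k1', rs_add_nat, rs_add_nat] at h1
    rw [hvu, hvu', k2, k2'] at h2
    have h1' : (v : ZMod s) = (v' : ZMod s) := add_left_cancel h1
    have hlt : ∀ {v u t : ℕ}, Odd u → t + 1 = 2 ^ v * u → t < n → v < s ∧ u < 2 ^ s := by
      intro v u t hu ht htn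
      have h3 : 2 ^ v ≤ 2 ^ v * u := Nat.le_mul_of_pos_right _ hu.pos
      have h4 : u ≤ 2 ^ v * u := Nat.le_mul_of_pos_left _ (by positivity)
      refine ⟨(Nat.pow_lt_pow_iff_right (a := 2) (by norm_num)).1 ?_, ?_⟩ <;> omega
    obtain ⟨a1, a2⟩ := hlt hu hvu ht
    obtain ⟨a3, a4⟩ := hlt hu' hvu' ht'
    have hvv : v = v' := by
      rw [ZMod.natCast_eq_natCast_iff'] at h1'
      rwa [Nat.mod_eq_of_lt a1, Nat.mod_eq_of_lt a3] at h1'
    have hunit : IsUnit (rs (k := 2 ^ s) h2s o) := by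
      rw [ho, rs_add, rs_one, rs_add]
      refine IsNilpotent.isUnit_add_one ⟨s, ?_⟩
      rw [← two_mul, mul_pow]
      have : (2 : ZMod (2 ^ s)) ^ s = 0 := by
        have := ZMod.natCast_self (2 ^ s)
        push_cast at this
        exact this
      rw [this, zero_mul]
    have huu : u = u' := by
      have h3 := hunit.mul_right_cancel h2
      rw [ZMod.natCast_eq_natCast_iff'] at h3
      rwa [Nat.mod_eq_of_lt a2, Nat.mod_eq_of_lt a4] at h3
    have : (t : ℕ) + 1 = t' + 1 := by rw [hvu, hvu', hvv, huu]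
    exact Fin.ext (by omega)

/-- if for every colouring with `n s 2 ^ s` colours, `n < 2 ^ s`, there is an unbounded set such
that the sums of at most `n` distinct elements have less than `n` colours, then `Σ⁰₁`
comprehension holds -/
theorem few_rev (n s : ℕ) (hn2 : 2 ≤ n) (hn : n < 2 ^ s) (N : L2Structure.{u}) [IsModelRCA0 N]
    (H : ∀ c : N.M → ZMod n × (ZMod s × ZMod (2 ^ s)), (∀ j, {x | c x = j} ∈ N.Sets) →
      ∃ X ∈ N.Sets, (∀ b, ∃ x ∈ X, b < x) ∧
        ∃ S : Finset (ZMod n × (ZMod s × ZMod (2 ^ s))), S.card < n ∧ ∀ l : List N.M, l ≠ [] →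
        l.length ≤ n → l.Nodup → (∀ x ∈ l, x ∈ X) → c l.sum ∈ S) : Sig1 N := by
  classical
  have : NeZero n := ⟨by omega⟩
  have hs : 0 < s := by
    rcases Nat.eq_zero_or_pos s with h | h
    · subst h
      simp at hn
      omega
    · exact h
  have h2s : 0 < 2 ^ s := by positivity
  constructor
  intro P hP
  obtain ⟨p2, top, la, hB0⟩ := bin N
  have hB : BinF p2 top la := binf N p2 top la (binp N p2 top la hB0)
  have hla : GF la := hB.hla
  obtain ⟨th, hth⟩ := exists_th (N := N) (k := n) (by omega)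
  obtain ⟨W, hW, hPW⟩ := exists_enum hP
  obtain ⟨C, hC⟩ := exists_sys (k := n) (by omega) hB hth hW
  obtain ⟨od, hod, hodd⟩ := exists_od hB
  obtain ⟨X, hX, hunb, S, hS, hXS⟩ := H (fun x => (C x, (rs hs (la x), rs h2s (od x)))) (by
    rintro ⟨j1, j2, j3⟩
    have h1 : D1 (fun v : Ctx N => C (v 0) = j1 ∧ (rs hs (la (v 0)) = j2 ∧
        rs h2s (od (v 0)) = j3)) :=
      D1.and (hC.app (DG.var 0) _) (D1.and (rs_D1 hs _ (DG.app hla (DG.var 0)))
        (rs_D1 h2s _ (DG.app hod (DG.var 0))))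
    have h2 : D1 (fun v : Ctx N => (C (v 0), (rs hs (la (v 0)), rs h2s (od (v 0)))) =
        (j1, (j2, j3))) := h1.congr fun v => by simp [Prod.ext_iff]
    exact comp_D1 (P := fun x => (C x, (rs hs (la x), rs h2s (od x))) = (j1, (j2, j3))) h2.1 h2.2)
  have hfar := far2 (n := n) (s := s) hB hodd hX hunb hn hs (by
    rintro ⟨f, hf1, hf2⟩
    have h1 : ∀ t, (C (f t).sum, (rs hs (la (f t).sum), rs h2s (od (f t).sum))) ∈ S := fun t =>
      hXS (f t) (hf1 t).1 (hf1 t).2.1 (hf1 t).2.2.1 (hf1 t).2.2.2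
    have h2 : (Finset.univ : Finset (Fin n)).card ≤ S.card := by
      refine Finset.card_le_card_of_injOn
        (fun t => (C (f t).sum, (rs hs (la (f t).sum), rs h2s (od (f t).sum)))) ?_ ?_
      · intro t _
        exact h1 t
      · intro t _ t' _ htt
        exact hf2 (Prod.ext_iff.1 htt).2
    rw [Finset.card_univ, Fintype.card_fin] at h2
    omega)
  obtain ⟨c0, hc0⟩ : ∃ c0 : ZMod n, c0 ∉ S.image Prod.fst := by
    by_contra hcon
    push Not at hcon
    have h1 : (Finset.univ : Finset (ZMod n)) ⊆ S.image Prod.fst := fun c _ => hcon c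
    have h2 := Finset.card_le_card h1
    rw [Finset.card_univ, ZMod.card] at h2
    exact absurd (h2.trans Finset.card_image_le) (not_le.2 hS)
  refine Dat.main (c0 := c0) ⟨hn2, hB, hW, hth, hC, hX, hfar, fun l h1 h2 h3 h4 h5 => ?_⟩ hP hPW
  refine hc0 (Finset.mem_image.2 ⟨_, hXS l h1 h2 h3 h4, h5⟩)

end Pool.Agent.T2h50.BT
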